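import Mathlib

namespace Pool.Agent.Results.MP_c624c9_nt.Fails

noncomputable def conv (k i : ℕ) : ℚ := Real.convergent (√k) i

def R (k : ℕ) (d : ℚ) : ℚ := 4 * d ^ 2 / (k - d ^ 2)

def orb (k : ℕ) (d : ℚ) (n : ℕ) : ℚ := (fun x => (d * x + k) / (x + d))^[n] d

def Pellian (k : ℕ) (x : ℚ) : Prop :=
  0 < x ∧ (x.num ^ 2 - k * (x.den : ℤ) ^ 2 = 1 ∨ x.num ^ 2 - k * (x.den : ℤ) ^ 2 = -1)

instance (k : ℕ) (x : ℚ) : Decidable (Pellian k x) := by unfold Pellian; infer_instance

lemma step (m q a m' q' : ℤ) (hq : 0 < q) (hq' : 0 < q') (h1 : m' = q * a - m)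
    (h2 : q * q' = 375 - m' ^ 2) (h3 : m' ≤ 19) (h4 : 20 ≤ m' + q) :
    Real.convergent ((m + √375) / q) 0 = a ∧ ∀ n, Real.convergent ((m + √375) / q) (n + 1) =
      a + (Real.convergent ((m' + √375) / q') n)⁻¹ := by
  have s1 : (19 : ℝ) < √375 := Real.lt_sqrt_of_sq_lt (by norm_num)
  have s2 : √375 < (20 : ℝ) := (Real.sqrt_lt' (by norm_num)).2 (by norm_num)
  have s3 : √375 ^ 2 = (375 : ℝ) := Real.sq_sqrt (by norm_num)
  have r0 : (0 : ℝ) < q := by exact_mod_cast hq
  have r0' : (0 : ℝ) < q' := by exact_mod_cast hq'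
  have r1 : (m' : ℝ) = q * a - m := by exact_mod_cast h1
  have r2 : (q : ℝ) * q' = 375 - m' ^ 2 := by exact_mod_cast h2
  have r3 : (m' : ℝ) ≤ 19 := by exact_mod_cast h3
  have r4 : (20 : ℝ) ≤ m' + q := by exact_mod_cast h4
  have f : ⌊(m + √375) / q⌋ = a := by
    rw [Int.floor_eq_iff, le_div_iff₀ r0, div_lt_iff₀ r0]
    constructor <;> linarith
  refine ⟨by rw [Real.convergent_zero, f], fun n => ?_⟩
  rw [Real.convergent_succ, f, Int.fract, f]
  congr 3
  refine inv_eq_of_mul_eq_one_right ?_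
  field_simp
  linear_combination s3 - r2 + (m' + √375) * r1

theorem result : ∃ k : ℕ, 0 < k ∧ ¬ IsSquare k ∧ ∃ i j n : ℕ,
    IsLeast {i | ∃ z : ℤ, R k (conv k i) = z} i ∧ IsLeast {j | Pellian k (conv k j)} j ∧
    IsLeast {n | Pellian k (orb k (conv k i) n)} n ∧ orb k (conv k i) n ≠ conv k j := by
  have e : √((375 : ℕ) : ℝ) = (((0 : ℤ) : ℝ) + √375) / ((1 : ℤ) : ℝ) := by simp
  have h0 := step 0 1 19 19 14 (by norm_num) (by norm_num) (by norm_num) (by norm_num)
    (by norm_num) (by norm_num)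
  have h1 := step 19 14 2 9 21 (by norm_num) (by norm_num) (by norm_num) (by norm_num)
    (by norm_num) (by norm_num)
  have h2 := step 9 21 1 12 11 (by norm_num) (by norm_num) (by norm_num) (by norm_num)
    (by norm_num) (by norm_num)
  have h3 := step 12 11 2 10 25 (by norm_num) (by norm_num) (by norm_num) (by norm_num)
    (by norm_num) (by norm_num)
  have h4 := step 10 25 1 15 6 (by norm_num) (by norm_num) (by norm_num) (by norm_num)
    (by norm_num) (by norm_num)
  have h5 := step 15 6 5 15 25 (by norm_num) (by norm_num) (by norm_num) (by norm_num)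
    (by norm_num) (by norm_num)
  have h6 := step 15 25 1 10 11 (by norm_num) (by norm_num) (by norm_num) (by norm_num)
    (by norm_num) (by norm_num)
  have h7 := step 10 11 2 12 21 (by norm_num) (by norm_num) (by norm_num) (by norm_num)
    (by norm_num) (by norm_num)
  have h8 := step 12 21 1 9 14 (by norm_num) (by norm_num) (by norm_num) (by norm_num)
    (by norm_num) (by norm_num)
  have h9 := step 9 14 2 19 1 (by norm_num) (by norm_num) (by norm_num) (by norm_num)
    (by norm_num) (by norm_num)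
  have c0 : conv 375 0 = 19 := by
    rw [conv, e, (h0).1]; norm_num
  have c1 : conv 375 1 = 39 / 2 := by
    rw [conv, e, (h0).2, (h1).1]; norm_num
  have c2 : conv 375 2 = 58 / 3 := by
    rw [conv, e, (h0).2, (h1).2, (h2).1]; norm_num
  have c3 : conv 375 3 = 155 / 8 := by
    rw [conv, e, (h0).2, (h1).2, (h2).2, (h3).1]; norm_num
  have c4 : conv 375 4 = 213 / 11 := by
    rw [conv, e, (h0).2, (h1).2, (h2).2, (h3).2, (h4).1]; norm_num
  have c5 : conv 375 5 = 1220 / 63 := by
    rw [conv, e, (h0).2, (h1).2, (h2).2, (h3).2, (h4).2, (h5).1]; norm_num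
  have c6 : conv 375 6 = 1433 / 74 := by
    rw [conv, e, (h0).2, (h1).2, (h2).2, (h3).2, (h4).2, (h5).2, (h6).1]; norm_num
  have c7 : conv 375 7 = 4086 / 211 := by
    rw [conv, e, (h0).2, (h1).2, (h2).2, (h3).2, (h4).2, (h5).2, (h6).2, (h7).1]; norm_num
  have c8 : conv 375 8 = 5519 / 285 := by
    rw [conv, e, (h0).2, (h1).2, (h2).2, (h3).2, (h4).2, (h5).2, (h6).2, (h7).2, (h8).1]; norm_num
  have c9 : conv 375 9 = 15124 / 781 := by
    rw [conv, e, (h0).2, (h1).2, (h2).2, (h3).2, (h4).2, (h5).2, (h6).2, (h7).2, (h8).2, (h9).1]; norm_num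
  refine ⟨375, by norm_num, by decide +kernel, 3, 9, 4, ⟨⟨-3844, by rw [c3, R]; norm_num⟩, ?_⟩,
    ⟨by rw [Set.mem_ofPred_eq, c9]; decide +kernel, ?_⟩,
    ⟨by rw [Set.mem_ofPred_eq, c3]; decide +kernel, ?_⟩, by rw [c3, c9]; decide +kernel⟩
  · rintro i ⟨z, hz⟩
    by_contra hc
    have h := congrArg Rat.den hz
    have : i < 3 := not_le.1 hc
    interval_cases i <;> simp only [c0, c1, c2, Rat.den_intCast] at h <;> revert h <;>
      decide +kernel
  · intro i h
    by_contra hc
    have : i < 9 := not_le.1 hc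
    interval_cases i <;> simp only [Set.mem_ofPred_eq, c0, c1, c2, c3, c4, c5, c6, c7, c8] at h <;>
      revert h <;> decide +kernel
  · intro i h
    by_contra hc
    have : i < 4 := not_le.1 hc
    rw [Set.mem_ofPred_eq, c3] at h
    interval_cases i <;> revert h <;> decide +kernel

end Pool.Agent.Results.MP_c624c9_nt.Fails
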